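import Pool.Agent.QSX.StmtsA

/-!
QSX, row RNF: the reduction of a moderate sequence of elements of `n` is in `n_F`.
-/

set_option autoImplicit false

namespace Pool.Agent.QSX.H21

open Matrix Finset

theorem red_of {S : Scale} {z : ℕ → ℝ} (h : S.Md z) :
    S.red z = Ideal.Quotient.mk S.mm ⟨z, h⟩ := by
  unfold Scale.red
  rw [dif_pos h]

theorem rnf : RnfStmt := by
  intro S Y y hy hmd
  obtain ⟨g, hg⟩ := LinearMap.exists_leftInverse_of_injective Y.n.subtype
    (by rw [Submodule.ker_subtype])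
  have hgn : ∀ x ∈ Y.n, ((g x : Y.n) : Matrix (Fin Y.m) (Fin Y.m) ℝ) = x := by
    intro x hx
    have h1 := LinearMap.congr_fun hg ⟨x, hx⟩
    have h2 : g x = ⟨x, hx⟩ := h1
    rw [h2]
  let G : Fin Y.m → Fin Y.m → Matrix (Fin Y.m) (Fin Y.m) ℝ :=
    fun i j => ((g (Matrix.single i j 1) : Y.n) : Matrix (Fin Y.m) (Fin Y.m) ℝ)
  have hG : ∀ i j, G i j ∈ Y.n := fun i j => (g (Matrix.single i j 1)).2
  have hexp : ∀ x ∈ Y.n, ∀ a b, x a b = ∑ i, ∑ j, x i j * G i j a b := by
    intro x hx a b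
    have h1 : x = ∑ i, ∑ j, x i j • Matrix.single i j (1 : ℝ) := by
      conv_lhs => rw [Matrix.matrix_eq_sum_single x]
      refine Finset.sum_congr rfl fun i _ => Finset.sum_congr rfl fun j _ => ?_
      rw [Matrix.smul_single, smul_eq_mul, mul_one]
    have h2 : ((g x : Y.n) : Matrix (Fin Y.m) (Fin Y.m) ℝ) = ∑ i, ∑ j, x i j • G i j := by
      conv_lhs => rw [h1]
      rw [map_sum, Submodule.coe_sum]
      refine Finset.sum_congr rfl fun i _ => ?_
      rw [map_sum, Submodule.coe_sum]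
      refine Finset.sum_congr rfl fun j _ => ?_
      rw [map_smul]
      rfl
    have h3 : x a b = ((g x : Y.n) : Matrix (Fin Y.m) (Fin Y.m) ℝ) a b := by rw [hgn x hx]
    rw [h3, h2, Matrix.sum_apply]
    refine Finset.sum_congr rfl fun i _ => ?_
    rw [Matrix.sum_apply]
    refine Finset.sum_congr rfl fun j _ => ?_
    rw [Matrix.smul_apply, smul_eq_mul]
  let o : Fin Y.m → Fin Y.m → S.OO := fun i j => ⟨fun s => y s i j, hmd i j⟩
  have hred : S.redM y = ∑ i, ∑ j, (Ideal.Quotient.mk S.mm (o i j)) •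
      (G i j).map (algebraMap ℝ S.FF) := by
    ext a b
    rw [Matrix.sum_apply]
    have h1 : S.redM y a b = Ideal.Quotient.mk S.mm (o a b) := by
      unfold Scale.redM
      exact red_of (hmd a b)
    have h2 : o a b = ∑ i, ∑ j, o i j * algebraMap ℝ S.OO (G i j a b) := by
      apply Subtype.ext
      funext s
      have h3 : ((∑ i, ∑ j, o i j * algebraMap ℝ S.OO (G i j a b) : S.OO) : ℕ → ℝ) =
          ∑ i, ∑ j, ((o i j : ℕ → ℝ) * algebraMap ℝ (ℕ → ℝ) (G i j a b)) := by
        rw [AddSubmonoidClass.coe_finsetSum]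
        refine Finset.sum_congr rfl fun i _ => ?_
        rw [AddSubmonoidClass.coe_finsetSum]
        rfl
      rw [h3, Finset.sum_apply]
      change y s a b = _
      rw [hexp (y s) (hy s) a b]
      refine Finset.sum_congr rfl fun i _ => ?_
      rw [Finset.sum_apply]
      rfl
    rw [h1, h2, map_sum]
    refine Finset.sum_congr rfl fun i _ => ?_
    rw [map_sum, Matrix.sum_apply]
    refine Finset.sum_congr rfl fun j _ => ?_
    rw [map_mul, Matrix.smul_apply, Matrix.map_apply, smul_eq_mul]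
    rfl
  rw [hred]
  refine Submodule.sum_mem _ fun i _ => Submodule.sum_mem _ fun j _ => ?_
  refine Submodule.smul_mem _ _ (Submodule.subset_span ⟨G i j, hG i j, rfl⟩)

end Pool.Agent.QSX.H21
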